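import Mathlib
import Pool.Agent.Helper719.Emb.Defs
import Pool.Agent.Helper719.Emb.P_main

open scoped ENNReal

namespace Pool.Agent.Results.MP_926704_gt.NotAttained

/-- The embolic constant of the Klein bottle is `8√2/π`, and no smooth Riemannian metric on the
Klein bottle attains it. -/
theorem result :
    (⨅ g : KleinEmb.KleinMetric, g.embRatio) = ENNReal.ofReal (8 * √2 / Real.pi) ∧
      ∀ g : KleinEmb.KleinMetric, (⨅ g' : KleinEmb.KleinMetric, g'.embRatio) < g.embRatio :=
  KleinEmb.main

end Pool.Agent.Results.MP_926704_gt.NotAttained
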